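import Pool.Agent.P8H40.SE.Stm
import Pool.Agent.Y119.HY.GalL
import Pool.Agent.Y119.HY.Fam

/-!
# Project SE (helper40), package GFD: systems with diagonal rational exponents at the origin

If `Y = H x ^ ν` with a diagonal matrix `ν` of rational numbers solves `x T₁ Y' = A Y` and the entries of `H` and of its
inverse are G-functions, then every solution `H v` without monodromy at the origin is a family of G-functions which
satisfies the hypotheses of the theorem on tuples of points. (Adapted from `Pool.Agent.Y119.HY.GalL`, the case of a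
nilpotent matrix.)
-/

set_option autoImplicit false

open PowerSeries Finset.HasAntidiagonal

namespace Pool.Agent.P8H88.SE

open Pool.Agent.Y113 Pool.Agent.Y113.HGG Pool.Agent.Y119.HZ
open Pool.Agent.Y119.HY (GP gsys_of_GP choose_step choose_zero' fac_dvd)
open Pool.Agent.Y120.GF Pool.Agent.Y120.GH

/-! ### binomial coefficients of rational numbers -/

lemma choose_prod (x : ℚ) (s : ℕ) : Ring.choose x s = ∏ l ∈ Finset.range s, ((x - l) / ((l : ℚ) + 1)) := by
  induction s with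
  | zero => rw [choose_zero']; simp
  | succ s ih =>
    have h1 := choose_step x s
    rw [nsmul_eq_mul] at h1
    push_cast at h1
    have h3 : ((s : ℚ) + 1) ≠ 0 := by positivity
    rw [Finset.prod_range_succ, ← ih]
    field_simp
    linear_combination h1

lemma choose_int (p : ℤ) {b : ℕ} (hb : 0 < b) (s : ℕ) :
    ∃ a : ℤ, ((b : ℚ) ^ 2) ^ s * Ring.choose ((p : ℚ) / b) s = a := by
  obtain ⟨c, hc⟩ := fac_dvd (-p) b s
  have hb0 : (b : ℚ) ≠ 0 := by exact_mod_cast hb.ne'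
  have hs0 : (s.factorial : ℚ) ≠ 0 := by exact_mod_cast s.factorial_ne_zero
  have h1 : ∏ l ∈ Finset.range s, ((l : ℚ) + 1) = (s.factorial : ℚ) := by
    rw [← Finset.prod_range_add_one_eq_factorial]
    push_cast
    rfl
  have h2 : (b : ℚ) ^ s * ∏ l ∈ Finset.range s, ((p : ℚ) / b - l) =
      (-1) ^ s * ∏ l ∈ Finset.range s, (-(p : ℚ) + l * b) := by
    have e1 : ∀ c : ℚ, c ^ s = ∏ _l ∈ Finset.range s, c := fun c => by rw [Finset.prod_const, Finset.card_range]
    rw [e1, e1, ← Finset.prod_mul_distrib, ← Finset.prod_mul_distrib]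
    refine Finset.prod_congr rfl fun l _ => ?_
    field_simp
    ring
  have h3 : (b : ℚ) ^ s * ∏ l ∈ Finset.range s, (-(p : ℚ) + l * b) = (s.factorial : ℚ) * c := by
    exact_mod_cast hc
  refine ⟨(-1) ^ s * c, ?_⟩
  rw [choose_prod, Finset.prod_div_distrib, h1]
  have h4 : ((b : ℚ) ^ 2) ^ s = (b : ℚ) ^ s * (b : ℚ) ^ s := by rw [← mul_pow, pow_two]
  rw [h4, mul_assoc, ← mul_div_assoc, h2]
  push_cast
  rw [mul_div_assoc', div_eq_iff hs0]
  linear_combination (-1) ^ s * h3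

lemma choose_diag {n : ℕ} (x : Fin n → ℚ) (s : ℕ) :
    Ring.choose (Matrix.diagonal x) s = Matrix.diagonal fun j => Ring.choose (x j) s := by
  induction s with
  | zero =>
    rw [choose_zero']
    simp only [choose_zero']
    exact Matrix.diagonal_one.symm
  | succ s ih =>
    have h1 := choose_step (Matrix.diagonal x) s
    rw [ih] at h1
    ext i j
    have h2 := congrFun (congrFun h1 i) j
    have h0 : ((s : ℕ) : Matrix (Fin n) (Fin n) ℚ) = Matrix.diagonal fun _ => (s : ℚ) := (Matrix.diagonal_natCast s).symm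
    rw [h0, Matrix.diagonal_sub, Matrix.diagonal_mul_diagonal, Matrix.smul_apply, nsmul_eq_mul] at h2
    have hs : (((s + 1 : ℕ)) : ℚ) ≠ 0 := by exact_mod_cast Nat.succ_ne_zero s
    refine mul_left_cancel₀ hs ?_
    rw [h2, Matrix.diagonal_apply, Matrix.diagonal_apply]
    split_ifs with h
    · have h3 := choose_step (x i) s
      rw [nsmul_eq_mul] at h3
      exact h3.symm
    · rw [mul_zero]

/-! ### the coefficient polynomials -/

section
variable {n : ℕ} {ν : Fin n → ℚ} {H W : Matrix (Fin n) (Fin n) ℚ⟦X⟧}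

lemma coeff_YYd (s k : ℕ) (i j : Fin n) :
    coeff k (YY H (Matrix.diagonal ν) s i j) = coeff k (H i j) * Ring.choose ((k : ℚ) + ν j) s := by
  rw [coeff_YY]
  have h0 : ((k : ℕ) : Matrix (Fin n) (Fin n) ℚ) + Matrix.diagonal ν = Matrix.diagonal fun j => (k : ℚ) + ν j := by
    rw [← Matrix.diagonal_natCast, Matrix.diagonal_add]
  rw [h0, choose_diag, Matrix.mul_diagonal]
  rfl

lemma YYd_IS {m K d b : ℕ} (hb : 0 < b) (hν : ∀ i, ∃ p : ℤ, ν i = (p : ℚ) / b) (hH : ∀ i j, IS m d (H i j)) {s : ℕ}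
    (hs : s ≤ K) (i j : Fin n) : IS m (d * (b ^ 2) ^ K) (YY H (Matrix.diagonal ν) s i j) := by
  intro k hk
  obtain ⟨p, hp⟩ := hν j
  obtain ⟨a, ha⟩ := hH i j k hk
  obtain ⟨c, hc⟩ := choose_int (k * b + p) hb s
  have hb0 : (b : ℚ) ≠ 0 := by exact_mod_cast hb.ne'
  have h1 : (k : ℚ) + ν j = (((k * b + p : ℤ)) : ℚ) / b := by
    rw [hp]
    push_cast
    field_simp
  refine ⟨((b : ℤ) ^ 2) ^ (K - s) * (a * c), ?_⟩
  rw [coeff_YYd, h1]
  push_cast at hc ⊢
  rw [← ha, ← hc]
  have h2 : ((b : ℚ) ^ 2) ^ K = ((b : ℚ) ^ 2) ^ (K - s) * ((b : ℚ) ^ 2) ^ s := by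
    rw [← pow_add, Nat.sub_add_cancel hs]
  rw [h2]
  ring

variable {T₁ : Polynomial ℤ} {A : Fin n → Fin n → Polynomial ℤ}

lemma hode' (hode : ∀ i j, ps T₁ * (X * d⁄dX ℚ (H i j) + C (ν j) * H i j) = ∑ k, ps (A i k) * H k j) :
    ∀ i j, ps T₁ * (X * d⁄dX ℚ (H i j) + ∑ k, H i k * C (Matrix.diagonal ν k j)) = ∑ k, ps (A i k) * H k j := by
  intro i j
  rw [← hode i j]
  congr 2
  rw [Finset.sum_eq_single j]
  · rw [Matrix.diagonal_apply_eq, mul_comm]
  · intro k _ hk
    rw [Matrix.diagonal_apply_ne _ hk, map_zero, mul_zero]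
  · intro h
    exact absurd (Finset.mem_univ _) h

lemma ahd_GP {b : ℕ} (hb : 0 < b) (hν : ∀ i, ∃ p : ℤ, ν i = (p : ℚ) / b) (hHW : H * W = 1)
    (hode : ∀ i j, ps T₁ * (X * d⁄dX ℚ (H i j) + C (ν j) * H i j) = ∑ k, ps (A i k) * H k j)
    (hH : ∀ i j, SDc (H i j)) (hW : ∀ i j, SDc (W i j)) {q : ℕ} {B : ℝ} (hB : 1 ≤ B) (hT : Bd q B (Polynomial.X * T₁))
    (hA : ∀ i j, Bd q B (A i j)) (i k : Fin n) : GP q fun s => ah (Polynomial.X * T₁) (fun a b => A b a) s i k := by
  have hsize := ah_size (T := Polynomial.X * T₁) (A := fun a b => A b a) hB hT (fun i j => hA j i)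
  obtain ⟨CH, hCH, -, hHd⟩ := Pool.Agent.Y119.HY.SDc.unif (y := fun p : Fin n × Fin n => H p.1 p.2) fun p => hH p.1 p.2
  obtain ⟨CW, hCW, -, hWd⟩ := Pool.Agent.Y119.HY.SDc.unif (y := fun p : Fin n × Fin n => W p.1 p.2) fun p => hW p.1 p.2
  have hcc := one_le_cc n q
  have hCC : 1 ≤ (cc n q : ℝ) * B := by nlinarith
  have hb1 : (1 : ℝ) ≤ b := by exact_mod_cast hb
  have hb2 : (1 : ℝ) ≤ (b : ℝ) ^ 2 := one_le_pow₀ hb1
  set G : ℝ := CH ^ (q + 1) * (b : ℝ) ^ 2 * CW ^ (q + 1) with hG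
  have hHq : 1 ≤ CH ^ (q + 1) := one_le_pow₀ hCH
  have hWq : 1 ≤ CW ^ (q + 1) := one_le_pow₀ hCW
  have hG1 : 1 ≤ G := one_le_mul_of_one_le_of_one_le (one_le_mul_of_one_le_of_one_le hHq hb2) hWq
  refine ⟨(cc n q * B) * G, one_le_mul_of_one_le_of_one_le hCC hG1, fun s => ?_, fun K => ?_⟩
  · refine (hsize s i k).mono le_rfl ?_
    calc ((cc n q : ℝ) * B) ^ s ≤ ((cc n q : ℝ) * B) ^ (s + 1) := pow_le_pow_right₀ hCC (Nat.le_succ s)
      _ ≤ _ := pow_le_pow_left₀ (by linarith) (le_mul_of_one_le_right (by linarith) hG1) _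
  · obtain ⟨dH, hdH0, hdH, hdH'⟩ := hHd (q * K)
    obtain ⟨dW, hdW0, hdW, hdW'⟩ := hWd (q * K)
    refine ⟨dH * (b ^ 2) ^ K * dW, by positivity, ?_, fun s hs => ?_⟩
    · push_cast
      have e1 : (dH : ℝ) ≤ (CH ^ (q + 1)) ^ (K + 1) := by
        rw [← pow_mul]
        exact hdH.trans (pow_le_pow_right₀ hCH (by nlinarith))
      have e2 : (dW : ℝ) ≤ (CW ^ (q + 1)) ^ (K + 1) := by
        rw [← pow_mul]
        exact hdW.trans (pow_le_pow_right₀ hCW (by nlinarith))
      have e3 : ((b : ℝ) ^ 2) ^ K ≤ ((b : ℝ) ^ 2) ^ (K + 1) := pow_le_pow_right₀ hb2 (Nat.le_succ K)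
      calc (dH : ℝ) * ((b : ℝ) ^ 2) ^ K * dW ≤
            (CH ^ (q + 1)) ^ (K + 1) * ((b : ℝ) ^ 2) ^ (K + 1) * (CW ^ (q + 1)) ^ (K + 1) :=
              mul_le_mul (mul_le_mul e1 e3 (by positivity) (by positivity)) e2 (by positivity) (by positivity)
        _ = G ^ (K + 1) := by rw [hG, mul_pow _ (CW ^ (q + 1)), mul_pow (CH ^ (q + 1))]
        _ ≤ _ := pow_le_pow_left₀ (by linarith) (le_mul_of_one_le_left (by linarith) hCC) _
    · have key : ((ah (Polynomial.X * T₁) (fun a b => A b a) s i k : Polynomial ℚ) : ℚ⟦X⟧) =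
          ∑ j, (ps T₁ ^ s * YY H (Matrix.diagonal ν) s i j) * W j k := by
        simp only [YY_ah (hode' hode), Finset.sum_mul]
        rw [Finset.sum_comm]
        have h1 : ∀ l, ∑ j, (((ah (Polynomial.X * T₁) (fun a b => A b a) s i l : Polynomial ℚ) : ℚ⟦X⟧) * H l j) * W j k =
            ((ah (Polynomial.X * T₁) (fun a b => A b a) s i l : Polynomial ℚ) : ℚ⟦X⟧) * (if l = k then 1 else 0) := by
          intro l
          rw [← Matrix.one_apply, ← hHW, Matrix.mul_apply, Finset.mul_sum]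
          exact Finset.sum_congr rfl fun j _ => by ring
        simp only [h1]
        simp
      have hIS : IS (q * K) (dH * (b ^ 2) ^ K * dW)
          ((ah (Polynomial.X * T₁) (fun a b => A b a) s i k : Polynomial ℚ) : ℚ⟦X⟧) := by
        rw [key]
        refine IS.sum _ fun j _ => ?_
        have h1 := (IS.ps_pow (q * K) T₁ s).mul (YYd_IS hb hν (fun i j => hdH' (i, j)) hs i j)
        rw [one_mul] at h1
        exact h1.mul (hdW' (j, k))
      refine IP.of_coeff fun m => ?_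
      by_cases hm : m ≤ q * s
      · obtain ⟨a, ha⟩ := hIS m (hm.trans (Nat.mul_le_mul_left q hs))
        exact ⟨a, by rw [← ha, Polynomial.coeff_coe]⟩
      · refine ⟨0, ?_⟩
        rw [Polynomial.coeff_eq_zero_of_natDegree_lt (lt_of_le_of_lt (hsize s i k).1 (by omega))]
        simp

/-! ### the solution without monodromy -/

lemma ode_v {v : Fin n → ℚ} (hv : ∀ i, ν i * v i = 0)
    (hode : ∀ i j, ps T₁ * (X * d⁄dX ℚ (H i j) + C (ν j) * H i j) = ∑ k, ps (A i k) * H k j) (i : Fin n) :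
    ps (Polynomial.X * T₁) * d⁄dX ℚ (∑ j, H i j * C (v j)) = ∑ k, ps (A i k) * ∑ j, H k j * C (v j) := by
  have h1 : ∀ j, ps (Polynomial.X * T₁) * d⁄dX ℚ (H i j * C (v j)) = (∑ k, ps (A i k) * H k j) * C (v j) := by
    intro j
    have h2 : C (ν j) * C (v j) = (0 : ℚ⟦X⟧) := by rw [← map_mul, hv j, map_zero]
    rw [← hode i j, Derivation.leibniz, PowerSeries.derivative_C, ps_X_mul]
    simp only [smul_eq_mul, mul_zero, zero_add]
    linear_combination -(ps T₁ * H i j) * h2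
  rw [map_sum, Finset.mul_sum, Finset.sum_congr rfl fun j _ => h1 j]
  simp only [Finset.sum_mul, Finset.mul_sum]
  rw [Finset.sum_comm]
  exact Finset.sum_congr rfl fun k _ => Finset.sum_congr rfl fun j _ => by ring

lemma gsys_v {b : ℕ} (hb : 0 < b) (hν : ∀ i, ∃ p : ℤ, ν i = (p : ℚ) / b) {v : Fin n → ℚ} (hv : ∀ i, ν i * v i = 0)
    (hHW : H * W = 1) (hode : ∀ i j, ps T₁ * (X * d⁄dX ℚ (H i j) + C (ν j) * H i j) = ∑ k, ps (A i k) * H k j)
    (hH : ∀ i j, SDc (H i j)) (hW : ∀ i j, SDc (W i j)) :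
    ∃ (q : ℕ) (B : ℝ), GSys q B (Polynomial.X * T₁) (fun i => ∑ j, H i j * C (v j)) := by
  obtain ⟨q, B, hB, hbd⟩ := bd_exists (fun o : Option (Fin n × Fin n) => o.elim (Polynomial.X * T₁) fun p => A p.1 p.2)
  have hT : Bd q B (Polynomial.X * T₁) := hbd none
  have hA : ∀ i j, Bd q B (A i j) := fun i j => hbd (some (i, j))
  have hGP := fun i k => ahd_GP hb hν hHW hode hH hW hB hT hA i k
  refine ⟨q, gsys_of_GP hT.1 (fun i => ?_) (fun i k s => ah (Polynomial.X * T₁) (fun a b => A b a) s i k) hGP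
    fun s i => ?_⟩
  · exact Pool.Agent.Y119.HZ.SDc.sum' _ fun j _ => (hH i j).mul (Pool.Agent.Y119.HZ.SDc_C _)
  · exact hd_row (T := Polynomial.X * T₁) (A := fun a b => A b a) (y := fun _ i => ∑ j, H i j * C (v j))
      (fun _ i => by
        rw [ode_v hv hode i]
        exact Finset.sum_congr rfl fun k _ => mul_comm _ _) s i i

/-! ### the fundamental matrix -/

lemma qu_d {b : ℕ} (hb : 0 < b) (hν : ∀ i, ∃ p : ℤ, ν i = (p : ℚ) / b) (hHW : H * W = 1)
    (hode : ∀ i j, ps T₁ * (X * d⁄dX ℚ (H i j) + C (ν j) * H i j) = ∑ k, ps (A i k) * H k j)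
    (hH : ∀ i j, SDc (H i j)) : QU0 (Polynomial.X * T₁) A := by
  classical
  choose p hp using hν
  obtain ⟨CH, hCH, hs, -⟩ := Pool.Agent.Y119.HY.SDc.unif (y := fun p : Fin n × Fin n => H p.1 p.2) fun p => hH p.1 p.2
  set M : ℕ := ∑ j, (p j).natAbs with hM
  have hMp : ∀ j, 0 ≤ (M : ℤ) + p j := by
    intro j
    have h1 : (p j).natAbs ≤ M := Finset.single_le_sum (f := fun j => (p j).natAbs) (fun _ _ => Nat.zero_le _)
      (Finset.mem_univ j)
    omega
  set m : Fin n → ℕ := fun j => ((M : ℤ) + p j).toNat with hm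
  have hmj : ∀ j, ((m j : ℕ) : ℤ) = (M : ℤ) + p j := fun j => Int.toNat_of_nonneg (hMp j)
  have hb0 : b ≠ 0 := hb.ne'
  -- the functions
  set F : Fin n → Fin n → PowerSeries ℂ := fun i j => (X : PowerSeries ℂ) ^ (m j) * expand b hb0 (cx (H i j)) with hF
  have hcoeff : ∀ i j k, ‖coeff k (F i j)‖ ≤ CH ^ (k + 1) := by
    intro i j k
    rw [hF]
    simp only
    rw [PowerSeries.coeff_X_pow_mul', ]
    split_ifs with h
    · rw [coeff_expand]
      split_ifs with h'
      · rw [norm_coeff_cx]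
        refine (hs (i, j) _).trans (pow_le_pow_right₀ hCH ?_)
        have : (k - m j) / b ≤ k - m j := Nat.div_le_self _ _
        omega
      · rw [norm_zero]
        positivity
    · rw [norm_zero]
      positivity
  -- the equation over the complex numbers
  have hodeC : ∀ i j, cx (ps T₁) * (X * PowerSeries.derivative ℂ (cx (H i j)) + C ((ν j : ℚ) : ℂ) * cx (H i j)) =
      ∑ k, cx (ps (A i k)) * cx (H k j) := by
    intro i j
    have h1 := congrArg cx (hode i j)
    rw [map_mul, map_add, map_mul, map_sum, map_mul, cx_der, cx_C] at h1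
    have h2 : cx (X : ℚ⟦X⟧) = X := by rw [cx, map_X]
    rw [h2] at h1
    simp only [map_mul] at h1
    exact h1
  have hder : ∀ i j, (X : PowerSeries ℂ) * PowerSeries.derivative ℂ (F i j) - (M : PowerSeries ℂ) * F i j =
      (b : PowerSeries ℂ) * X ^ (m j) * expand b hb0 (X * PowerSeries.derivative ℂ (cx (H i j)) +
        C ((ν j : ℚ) : ℂ) * cx (H i j)) := by
    intro i j
    rw [hF]
    simp only
    rw [Derivation.leibniz, Derivation.leibniz_pow, derivative_X, derivative_expand hb0]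
    simp only [smul_eq_mul, nsmul_eq_mul, mul_one]
    rw [map_add, map_mul, map_mul, expand_X, expand_C]
    have h1 : (b : PowerSeries ℂ) * C ((ν j : ℚ) : ℂ) = (m j : PowerSeries ℂ) - (M : PowerSeries ℂ) := by
      rw [← map_natCast (C (R := ℂ)) b, ← map_natCast (C (R := ℂ)) (m j), ← map_natCast (C (R := ℂ)) M, ← map_mul, ← map_sub]
      congr 1
      have h2 : ((m j : ℕ) : ℂ) = (M : ℂ) + ((p j : ℤ) : ℂ) := by exact_mod_cast congrArg (fun z : ℤ => (z : ℂ)) (hmj j)
      rw [h2, hp j]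
      have hbC : (b : ℂ) ≠ 0 := by exact_mod_cast hb0
      push_cast
      field_simp
      ring
    have h3 : (X : PowerSeries ℂ) * X ^ (b - 1) = X ^ b := by
      rw [← pow_succ', Nat.sub_add_cancel hb]
    have h4 : (X : PowerSeries ℂ) * ((m j : PowerSeries ℂ) * X ^ (m j - 1)) = (m j : PowerSeries ℂ) * X ^ (m j) := by
      rcases Nat.eq_zero_or_pos (m j) with h | h
      · rw [h]
        simp
      · rw [mul_left_comm, ← pow_succ', Nat.sub_add_cancel h]
    linear_combination (X ^ m j * (b : PowerSeries ℂ) * (expand b hb0) (PowerSeries.derivative ℂ (cx (H i j)))) * h3 +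
      (expand b hb0) (cx (H i j)) * h4 - X ^ m j * (expand b hb0) (cx (H i j)) * h1
  refine ⟨b, hb0, M, CH, Matrix.of fun i j => Polynomial.C (F i j), fun i j k l => ?_, fun i j k => ?_, ?_⟩
  · rw [Matrix.of_apply, Polynomial.coeff_C]
    split_ifs with h
    · exact hcoeff i j l
    · rw [map_zero, norm_zero]
      positivity
  · simp only [Matrix.of_apply, Polynomial.coeff_C, Nat.succ_ne_zero, if_false, mul_zero, add_zero]
    rcases Nat.eq_zero_or_pos k with hk | hk
    · subst hk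
      simp only [if_true]
      rw [hder, ← cx_ps, ps_X_mul, map_mul, map_mul]
      have h2 : cx (X : ℚ⟦X⟧) = X := by rw [cx, map_X]
      rw [h2, expand_X]
      have h5 : expand b hb0 (cx (ps T₁)) * expand b hb0 (X * PowerSeries.derivative ℂ (cx (H i j)) +
          C ((ν j : ℚ) : ℂ) * cx (H i j)) = ∑ l, expand b hb0 (cx (ps (A i l))) * expand b hb0 (cx (H l j)) := by
        rw [← map_mul, hodeC, map_sum]
        exact Finset.sum_congr rfl fun l _ => map_mul _ _ _
      have h6 : ∑ l, expand b hb0 (((A i l).map (Int.castRingHom ℂ) : Polynomial ℂ) : PowerSeries ℂ) * F l j =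
          X ^ (m j) * ∑ l, expand b hb0 (cx (ps (A i l))) * expand b hb0 (cx (H l j)) := by
        rw [Finset.mul_sum]
        refine Finset.sum_congr rfl fun l _ => ?_
        rw [← cx_ps, hF]
        ring
      rw [h6, ← h5]
      ring
    · simp only [hk.ne', if_false, map_zero, mul_zero, sub_zero, Finset.sum_const_zero]
  · -- the determinant
    have h1 : (Matrix.of fun i j => Polynomial.C (F i j)) = (Polynomial.C (R := PowerSeries ℂ)).mapMatrix (Matrix.of F) := by
      ext1 i j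
      rfl
    rw [h1, ← RingHom.map_det, Ne, Polynomial.C_eq_zero]
    have h2 : Matrix.of F = (((expand b hb0 : PowerSeries ℂ →ₐ[ℂ] PowerSeries ℂ) : PowerSeries ℂ →+* PowerSeries ℂ).comp
        cx).mapMatrix H * Matrix.diagonal fun j => (X : PowerSeries ℂ) ^ (m j) := by
      ext1 i j
      rw [Matrix.mul_diagonal, Matrix.of_apply, RingHom.mapMatrix_apply, Matrix.map_apply, hF, mul_comm]
      rfl
    rw [h2, Matrix.det_mul, Matrix.det_diagonal]
    refine mul_ne_zero ?_ (Finset.prod_ne_zero_iff.2 fun j _ => pow_ne_zero _ X_ne_zero)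
    rw [← RingHom.map_det]
    have h3 : H.det * W.det = 1 := by rw [← Matrix.det_mul, hHW, Matrix.det_one]
    intro h4
    have h5 := congrArg (((expand b hb0 : PowerSeries ℂ →ₐ[ℂ] PowerSeries ℂ) : PowerSeries ℂ →+* PowerSeries ℂ).comp cx) h3
    rw [map_mul, h4, zero_mul, map_one] at h5
    exact zero_ne_one h5

end

lemma common_den' {n : ℕ} (ν : Fin n → ℚ) : ∃ b : ℕ, 0 < b ∧ ∀ i, ∃ p : ℤ, ν i = (p : ℚ) / b := by
  classical
  refine ⟨∏ i, (ν i).den, Finset.prod_pos fun i _ => (ν i).den_pos, fun i => ?_⟩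
  refine ⟨(ν i).num * ∏ k ∈ Finset.univ.erase i, ((ν k).den : ℤ), ?_⟩
  rw [← Finset.mul_prod_erase _ _ (Finset.mem_univ i)]
  have h1 : ((ν i).den : ℚ) ≠ 0 := by exact_mod_cast (ν i).den_nz
  have h2 : (∏ k ∈ Finset.univ.erase i, ((ν k).den : ℚ)) ≠ 0 :=
    Finset.prod_ne_zero_iff.2 fun k _ => by exact_mod_cast (ν k).den_nz
  push_cast
  rw [mul_div_mul_right _ _ h2]
  exact (Rat.num_div_den (ν i)).symm

/-- **package GFD** -/
theorem gfd : Pool.Agent.P8H40.SE.S_GFD := by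
  intro n T₁ A ν v H W hT hHW hode hH hW hv
  obtain ⟨b, hb, hν⟩ := common_den' ν
  exact ⟨mul_ne_zero Polynomial.X_ne_zero hT, fun i => ode_v hv hode i, gsys_v hb hν hv hHW hode hH hW,
    qu_d hb hν hHW hode hH⟩

end Pool.Agent.P8H88.SE
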